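import Pool.Agent.LR.EFin

/-!
# Holomorphic maps `SG_k → SG_n`, `11 ≤ k < n < B(k)`, are constant, with `B(k) = 2 ^ ⌊k/6⌋` for `k ≥ 56` and
`B(k) = max (2 k - 8) (C(⌊k/2⌋ - 1, 2))` for `k < 56`, and for all `n > k` if `P_{f(z)}` splits into continuous factors of
degrees below `B(k)`
-/

set_option autoImplicit false

namespace Pool.Agent.Results.MP_f80056_ag.ExpRange

open Pool.Agent.H60.OC

theorem result (k n r : ℕ) (hk : 11 ≤ k) (hkn : k < n) (f : (Fin k → ℂ) → (Fin n → ℂ))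
    (hmap : Set.MapsTo f (SG k) (SG n)) (hf : HoloOn (SG k) f)
    (m : Fin r → ℕ)
    (hm : ∀ t, m t < if 56 ≤ k then 2 ^ (k / 6) else max (2 * k - 8) ((k / 2 - 1).choose 2))
    (h : (t : Fin r) → (Fin k → ℂ) → (Fin (m t) → ℂ)) (hc : ∀ t, ContinuousOn (h t) (SG k))
    (hp : ∀ z ∈ SG k, poly (f z) = ∏ t, poly (h t z)) :
    ∀ z ∈ SG k, ∀ z' ∈ SG k, f z = f z' :=
  Pool.Agent.LR.all_factors hk hkn hmap hf m hm h hc hp

end Pool.Agent.Results.MP_f80056_ag.ExpRange
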