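import Pool.Agent.H60.OC.Main

/-!
# Holomorphic maps `SG_k → SG_n` which lift to the ordered configurations are constant
-/

set_option autoImplicit false

namespace Pool.Agent.Results.MP_f80056_ag.OrderedConfigurations

open Pool.Agent.H60.OC

theorem result (k n : ℕ) (hk : 3 ≤ k) (hkn : k < n) (f : (Fin k → ℂ) → (Fin n → ℂ))
    (hmap : Set.MapsTo f (SG k) (SG n)) (hf : HoloOn (SG k) f)
    (hsplit : ∃ μ : (Fin k → ℂ) → (Fin n → ℂ), ContinuousOn μ (MF k) ∧
      ∀ x ∈ MF k, ∀ z, IsRoots x z → IsRoots (μ x) (f z)) :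
    ∀ z ∈ SG k, ∀ z' ∈ SG k, f z = f z' := by
  obtain ⟨μ, hc, hμ⟩ := hsplit
  exact main_theorem hk hkn hmap hf hc hμ

end Pool.Agent.Results.MP_f80056_ag.OrderedConfigurations
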